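import Pool.Agent.P.MP_d1873d_pr.Ad.Main

/-! Sharpness of the percolation transition of dynamic elliptic bootstrap percolation in every
dimension: exponential decay below the critical time and the mean field lower bound above it. -/

namespace Pool.Agent.Results.MP_d1873d_pr.AllDimensions

open MeasureTheory Pool.Agent.EB.Ad

theorem result (D : ℕ) (hD : 2 ≤ D) (lam : (Ball D → Bool) → ℝ) (hmono : Monotone lam)
    (hpos : 0 < lam fun _ => false) (hone : (lam fun _ => true) = 1) :
    (∃ P : ℝ → Measure (Config D), IsLaw lam P) ∧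
    ∀ P : ℝ → Measure (Config D), IsLaw lam P →
      0 < tc P ∧
      (∀ t : ℝ, 0 ≤ t → t < tc P → ∃ c : ℝ, 0 < c ∧ ∀ n : ℕ, 1 ≤ n →
        (P t).real (Crossing D true n) ≤ Real.exp (-(c * n))) ∧
      (∀ T : ℝ, ∃ c : ℝ, 0 < c ∧ ∀ t : ℝ, tc P < t → t ≤ T →
        c * (t - tc P) ≤ (P t).real (Perc D true)) := by
  have hlam : Elliptic lam := ⟨hmono, hpos, hone⟩
  refine ⟨⟨_, hlam.isLaw⟩, fun P hP => ?_⟩
  have e : ∀ t, 0 ≤ t → P t = hlam.law t := fun t ht => hP.unique hlam hlam.isLaw ht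
  have e2 : tc P = tc hlam.law :=
    congrArg sInf (Set.ext fun t => and_congr_right fun ht => by rw [e t ht])
  have h0 := hlam.tc_pos hD
  rw [e2]
  refine ⟨h0, fun t ht h1 => by rw [e t ht]; exact hlam.part_one ht h1, fun T => ?_⟩
  obtain ⟨c, hc, h⟩ := hlam.part_two hD T
  exact ⟨c, hc, fun t h1 h2 => by rw [e t (h0.trans h1).le]; exact h t h1 h2⟩

/-- The mirror statement for nearest neighbour paths of minus sites. -/
theorem minus_phase (D : ℕ) (hD : 2 ≤ D) (lam : (Ball D → Bool) → ℝ) (hmono : Monotone lam)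
    (hpos : 0 < lam fun _ => false) (hone : (lam fun _ => true) = 1)
    (P : ℝ → Measure (Config D)) (hP : IsLaw lam P) :
    0 < tm P ∧
    (∀ t : ℝ, tm P < t → ∃ c : ℝ, 0 < c ∧ ∀ n : ℕ, 1 ≤ n →
      (P t).real (Crossing D false n) ≤ Real.exp (-(c * n))) ∧
    ∃ c : ℝ, 0 < c ∧ ∀ t : ℝ, 0 ≤ t → t < tm P →
      c * (tm P - t) ≤ (P t).real (Perc D false) := by
  have hlam : Elliptic lam := ⟨hmono, hpos, hone⟩
  have e : ∀ t, 0 ≤ t → P t = hlam.law t := fun t ht => hP.unique hlam hlam.isLaw ht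
  have e2 : tm P = tm hlam.law :=
    congrArg sInf (Set.ext fun t => and_congr_right fun ht => by rw [e t ht])
  have h0 := hlam.tm_pos hD
  rw [e2]
  refine ⟨h0, fun t h1 => by rw [e t (h0.trans h1).le]; exact hlam.part_three h1, ?_⟩
  obtain ⟨c, hc, h⟩ := hlam.part_four hD
  exact ⟨c, hc, fun t h1 h2 => by rw [e t h1]; exact h t h1 h2⟩

/-- The crossing and percolation events are measurable. -/
theorem events_measurable (D : ℕ) (s : Bool) (n : ℕ) :
    MeasurableSet (Crossing D s n) ∧ MeasurableSet (Perc D s) :=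
  ⟨measurableSet_Crossing s n, measurableSet_Perc s⟩

end Pool.Agent.Results.MP_d1873d_pr.AllDimensions
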