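import Pool.Agent.P.MP_d1873d_pr.Main

/-! Exponential decay off criticality in dynamic elliptic bootstrap percolation, for every monotone
rate function, without any symmetry assumption. -/

namespace Pool.Agent.Results.MP_d1873d_pr.NoSymmetry

open MeasureTheory Pool.Agent.EB

theorem result (lam : (Ball → Bool) → ℝ) (hmono : Monotone lam) (hpos : 0 < lam fun _ => false)
    (hone : (lam fun _ => true) = 1) :
    (∃ P : ℝ → Measure Config, IsLaw lam P) ∧
    ∀ P : ℝ → Measure Config, IsLaw lam P →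
      (∀ t : ℝ, 0 ≤ t → t < tc P → ∃ c : ℝ, 0 < c ∧ ∀ n : ℕ, 1 ≤ n →
        (P t).real (Crossing n) ≤ Real.exp (-(c * n))) ∧
      (∀ t : ℝ, tc P < t → ∃ c : ℝ, 0 < c ∧ ∀ n : ℕ, 1 ≤ n →
        1 - Real.exp (-(c * n)) ≤ (P t).real (Crossing n)) := by
  have hlam : Elliptic lam := ⟨hmono, hpos, hone⟩
  refine ⟨⟨_, hlam.isLaw⟩, fun P hP => ?_⟩
  have e : ∀ t, 0 ≤ t → P t = hlam.law t := fun t ht => hP.unique hlam hlam.isLaw ht
  have e2 : tc P = tc hlam.law := by
    unfold tc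
    congr 1
    ext t
    exact and_congr_right fun ht => by rw [e t ht]
  have h0 : 0 ≤ tc hlam.law := Real.sInf_nonneg fun _ hs => hs.1
  rw [e2]
  exact ⟨fun t ht h1 => by rw [e t ht]; exact hlam.part_one ht h1,
    fun t h1 => by rw [e t (h0.trans h1.le)]; exact hlam.part_two h1⟩

/-- The posed case: rates that are also invariant under quarter turns. -/
theorem posed (lam : (Ball → Bool) → ℝ) (hlam : Admissible lam) :
    (∃ P : ℝ → Measure Config, IsLaw lam P) ∧
    ∀ P : ℝ → Measure Config, IsLaw lam P →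
      (∀ t : ℝ, 0 ≤ t → t < tc P → ∃ c : ℝ, 0 < c ∧ ∀ n : ℕ, 1 ≤ n →
        (P t).real (Crossing n) ≤ Real.exp (-(c * n))) ∧
      (∀ t : ℝ, tc P < t → ∃ c : ℝ, 0 < c ∧ ∀ n : ℕ, 1 ≤ n →
        1 - Real.exp (-(c * n)) ≤ (P t).real (Crossing n)) :=
  result lam hlam.mono hlam.pos hlam.one

end Pool.Agent.Results.MP_d1873d_pr.NoSymmetry
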